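import Pool.Agent.H717.NL.Stmts2

set_option autoImplicit false

/-!
# Fast remainder by a monic polynomial
-/

open Polynomial

namespace Pool.Agent.H155.NL

open Pool.Agent.H717.NL

theorem coeff_toPoly {m : ℕ} (v : Fin m → ℝ) (j : ℕ) :
    (toPoly v).coeff j = if h : j < m then v ⟨j, h⟩ else 0 := by
  unfold toPoly
  rw [finsetSum_coeff]
  simp only [coeff_C_mul, coeff_X_pow, mul_ite, mul_one, mul_zero]
  split_ifs with h
  · rw [Finset.sum_eq_single (⟨j, h⟩ : Fin m)]
    · simp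
    · intro b _ hb
      rw [if_neg]
      intro hj
      exact hb (Fin.ext hj.symm)
    · intro hb
      exact absurd (Finset.mem_univ _) hb
  · apply Finset.sum_eq_zero
    intro b _
    rw [if_neg]
    intro hj
    exact h (hj ▸ b.2)

theorem coeff_toPoly_of_lt {m : ℕ} (v : Fin m → ℝ) {j : ℕ} (h : j < m) :
    (toPoly v).coeff j = v ⟨j, h⟩ := by
  rw [coeff_toPoly, dif_pos h]

theorem coeff_toPoly_of_le {m : ℕ} (v : Fin m → ℝ) {j : ℕ} (h : m ≤ j) :
    (toPoly v).coeff j = 0 := by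
  rw [coeff_toPoly, dif_neg (not_lt.2 h)]

theorem degree_toPoly {m : ℕ} (v : Fin m → ℝ) : (toPoly v).degree < m := by
  rw [degree_lt_iff_coeff_zero]
  intro j hj
  exact coeff_toPoly_of_le v hj

theorem natDegree_toPoly {n : ℕ} (v : Fin (n + 1) → ℝ) : (toPoly v).natDegree ≤ n := by
  rw [natDegree_le_iff_coeff_eq_zero]
  intro j hj
  exact coeff_toPoly_of_le v (by omega)

theorem monic_g {d : ℕ} (v : Fin d → ℝ) : (X ^ d + toPoly v).Monic :=
  monic_X_pow_add (degree_toPoly v)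

theorem degree_g {d : ℕ} (v : Fin d → ℝ) :
    (X ^ d + toPoly v : ℝ[X]).degree = (d : WithBot ℕ) := by
  rw [degree_add_eq_left_of_degree_lt, degree_X_pow]
  rw [degree_X_pow]
  exact degree_toPoly v

theorem natDegree_g {d : ℕ} (v : Fin d → ℝ) : (X ^ d + toPoly v).natDegree = d :=
  natDegree_eq_of_degree_eq_some (degree_g v)

theorem ps_congr {n : ℕ} {A B : PowerSeries ℝ} (C : PowerSeries ℝ)
    (h : ∀ j < n, PowerSeries.coeff j A = PowerSeries.coeff j B) :
    ∀ j < n, PowerSeries.coeff j (A * C) = PowerSeries.coeff j (B * C) := by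
  intro j hj
  rw [PowerSeries.coeff_mul, PowerSeries.coeff_mul]
  refine Finset.sum_congr rfl fun p hp => ?_
  have := Finset.HasAntidiagonal.mem_antidiagonal.1 hp
  rw [h p.1 (by omega)]

theorem reflect_q {n : ℕ} (Q : Fin (n + 1) → ℝ) :
    reflect n (toPoly fun j : Fin (n + 1) => Q j.rev) = toPoly Q := by
  ext b
  rw [coeff_reflect]
  rcases le_or_gt b n with hb | hb
  · rw [revAt_le hb, coeff_toPoly_of_lt _ (show n - b < n + 1 by omega),
      coeff_toPoly_of_lt _ (show b < n + 1 by omega)]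
    congr 1
    ext
    simp only [Fin.val_rev]
    omega
  · rw [revAt_eq_self_of_lt hb, coeff_toPoly_of_le _ (by omega), coeff_toPoly_of_le _ (by omega)]

theorem reflect_g {d : ℕ} (v : Fin d → ℝ) :
    reflect d (X ^ d + toPoly v) = 1 + X * toPoly fun j : Fin d => v j.rev := by
  ext b
  rw [coeff_reflect, coeff_add, coeff_add, coeff_X_pow, coeff_one]
  rcases le_or_gt b d with hb | hb
  · rw [revAt_le hb]
    cases b with
    | zero =>
      rw [mul_coeff_zero, coeff_X_zero, zero_mul, if_pos (by omega), if_pos rfl,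
        coeff_toPoly_of_le _ (by omega)]
    | succ b =>
      rw [coeff_X_mul, if_neg (by omega), if_neg (by omega),
        coeff_toPoly_of_lt _ (show d - (b + 1) < d by omega),
        coeff_toPoly_of_lt _ (show b < d by omega)]
      rfl
  · rw [revAt_eq_self_of_lt hb]
    cases b with
    | zero => omega
    | succ b =>
      rw [coeff_X_mul, if_neg (by omega), if_neg (by omega), coeff_toPoly_of_le _ (by omega),
        coeff_toPoly_of_le _ (by omega)]

/-- the reversed quotient -/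
theorem mod_coeff {n d : ℕ} (f : Fin (n + 1 + d) → ℝ) (v : Fin d → ℝ) (F' U Q : Fin (n + 1) → ℝ)
    (hF : ∀ j : Fin (n + 1), F' j = (toPoly f).coeff (n + d - j))
    (hU : ∀ j : Fin (n + 1), U j = PowerSeries.coeff (R := ℝ) (j : ℕ)
      ((1 + PowerSeries.X * ((toPoly (fun j : Fin d => v j.rev) : ℝ[X]) : PowerSeries ℝ))⁻¹))
    (hQ : ∀ j : Fin (n + 1), Q j = (toPoly F' * toPoly U).coeff j) (i : Fin d) :
    (toPoly f %ₘ (X ^ d + toPoly v)).coeff i =
      (toPoly f).coeff i - ((toPoly fun j : Fin (n + 1) => Q j.rev) * toPoly v).coeff i := by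
  set q : ℝ[X] := toPoly fun j : Fin (n + 1) => Q j.rev with hq
  set g : ℝ[X] := X ^ d + toPoly v with hg
  set h : PowerSeries ℝ :=
    1 + PowerSeries.X * ((toPoly (fun j : Fin d => v j.rev) : ℝ[X]) : PowerSeries ℝ) with hh
  have hgh : ((reflect d g : ℝ[X]) : PowerSeries ℝ) = h := by
    rw [hg, reflect_g, coe_add, coe_mul, coe_X, coe_one]
  have hinv : h⁻¹ * h = 1 := by
    apply PowerSeries.inv_mul_cancel
    rw [hh]
    simp
  have hpow : ∀ j < n + 1, (toPoly Q * reflect d g).coeff j = (toPoly f).coeff (n + d - j) := by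
    intro j hj
    have e1 : ∀ j < n + 1, PowerSeries.coeff j ((toPoly Q : ℝ[X]) : PowerSeries ℝ) =
        PowerSeries.coeff j (((toPoly U : ℝ[X]) : PowerSeries ℝ) *
          ((toPoly F' : ℝ[X]) : PowerSeries ℝ)) := by
      intro j hj
      rw [← coe_mul, coeff_coe, coeff_coe, coeff_toPoly_of_lt _ hj, hQ, mul_comm]
    have e2 : ∀ j < n + 1, PowerSeries.coeff j ((toPoly U : ℝ[X]) : PowerSeries ℝ) =
        PowerSeries.coeff j (h⁻¹) := by
      intro j hj
      rw [coeff_coe, coeff_toPoly_of_lt _ hj, hU]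
    rw [← coeff_coe, coe_mul, hgh, ps_congr h e1 j hj, mul_assoc,
      ps_congr (((toPoly F' : ℝ[X]) : PowerSeries ℝ) * h) e2 j hj]
    have e3 : h⁻¹ * (((toPoly F' : ℝ[X]) : PowerSeries ℝ) * h) =
        ((toPoly F' : ℝ[X]) : PowerSeries ℝ) * (h⁻¹ * h) := by ring
    rw [e3, hinv, mul_one, coeff_coe, coeff_toPoly_of_lt _ hj, hF]
  have hqd : q.natDegree ≤ n := natDegree_toPoly _
  have hgd : g.natDegree = d := natDegree_g v
  have hrefl : reflect (n + d) (q * g) = toPoly Q * reflect d g := by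
    rw [reflect_mul q g hqd hgd.le, hq, reflect_q]
  have hcoef : ∀ i, d ≤ i → (q * g).coeff i = (toPoly f).coeff i := by
    intro i hi
    rcases le_or_gt i (n + d) with hi2 | hi2
    · have e1 : (reflect (n + d) (q * g)).coeff (n + d - i) = (q * g).coeff i := by
        rw [coeff_reflect, revAt_le (by omega)]
        congr 1
        omega
      rw [← e1, hrefl, hpow _ (by omega)]
      congr 1
      omega
    · rw [coeff_eq_zero_of_natDegree_lt, coeff_toPoly_of_le _ (by omega)]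
      exact lt_of_le_of_lt (natDegree_mul_le.trans (by omega)) hi2
  have hdeg : (toPoly f - q * g).degree < g.degree := by
    rw [hg, degree_g, degree_lt_iff_coeff_zero]
    intro i hi
    rw [coeff_sub, hcoef i hi, sub_self]
  have huni := (div_modByMonic_unique q (toPoly f - q * g) (monic_g v)
    ⟨by ring, hdeg⟩).2
  rw [huni, coeff_sub, hg, mul_add, coeff_add, coeff_mul_X_pow', if_neg (by omega), zero_add]

/-- the case of a small degree -/
theorem mod_small {m d : ℕ} (hmd : m ≤ d) (f : Fin m → ℝ) (v : Fin d → ℝ) :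
    toPoly f %ₘ (X ^ d + toPoly v) = toPoly f := by
  rw [modByMonic_eq_self_iff (monic_g v), degree_g]
  exact lt_of_lt_of_le (degree_toPoly f) (by exact_mod_cast hmd)

theorem t_mod (h1 : S_mul) (h2 : S_inv) : S_mod := by
  obtain ⟨K1, hK1⟩ := h1
  obtain ⟨K2, hK2⟩ := h2
  refine ⟨2 * K1 + K2 + 3, fun k m d hm hd => ?_⟩
  have hW : ∀ c : ℕ, c * 2 ^ k ≤ c * 2 ^ k * (k + 1) ^ 2 := fun c =>
    Nat.le_mul_of_pos_right _ (by positivity)
  have hT : (2 * K1 + K2 + 3) * 2 ^ k * (k + 1) ^ 2 =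
      2 * (K1 * 2 ^ k * (k + 1) ^ 2) + K2 * 2 ^ k * (k + 1) ^ 2 + 3 * 2 ^ k * (k + 1) ^ 2 := by
    ring
  have h3 := hW 3
  rw [hT]
  rcases le_or_gt m d with hmd | hmd
  · have hc : Cmp (fun p : (Fin m → ℝ) × (Fin d → ℝ) => fun i : Fin d =>
        if h : (i : ℕ) < m then p.1 ⟨i, h⟩ else (0 : ℝ)) (d * 3) := by
      refine Cmp.pi fun i => ?_
      by_cases h : (i : ℕ) < m
      · simp only [dif_pos h]
        exact (Cmp.fst.on (Cmp.proj _)).mono (by omega)
      · simp only [dif_neg h]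
        exact Cmp.zero
    refine (hc.mono (by omega)).congr fun p => ?_
    funext i
    rw [mod_small hmd, coeff_toPoly]
  · obtain ⟨n, rfl⟩ : ∃ n, m = n + 1 + d := ⟨m - 1 - d, by omega⟩
    -- the inverse of the reversed divisor
    have c1 : Cmp (β := Fin (2 ^ k) → ℝ) (fun p : (Fin (n + 1 + d) → ℝ) × (Fin d → ℝ) =>
        fun i : Fin (2 ^ k) => PowerSeries.coeff (R := ℝ) (i : ℕ)
          ((1 + PowerSeries.X * ((toPoly (fun j : Fin d => p.2 j.rev) : ℝ[X]) :
            PowerSeries ℝ))⁻¹)) (K2 * 2 ^ k * (k + 1) ^ 2) :=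
      (Cmp.snd.on (Cmp.reindex (α := ℝ) (fun j : Fin d => j.rev))).on (hK2 k d hd)
    -- the reversed quotient
    have c2 : Cmp (fun p : ((Fin (n + 1 + d) → ℝ) × (Fin d → ℝ)) × (Fin (2 ^ k) → ℝ) =>
        fun i : Fin (n + 1) =>
          (toPoly (fun j : Fin (n + 1) => p.1.1 ⟨n + d - j, by omega⟩) *
            toPoly (fun j : Fin (n + 1) => p.2 ⟨j, by omega⟩)).coeff i)
        (K1 * 2 ^ k * (k + 1) ^ 2) := by
      have e1 : Cmp (fun p : ((Fin (n + 1 + d) → ℝ) × (Fin d → ℝ)) × (Fin (2 ^ k) → ℝ) =>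
          ((fun j : Fin (n + 1) => p.1.1 ⟨n + d - j, by omega⟩),
            (fun j : Fin (n + 1) => p.2 ⟨j, by omega⟩))) (0 + 0) :=
        ((Cmp.fst.on (Cmp.fst.on (Cmp.reindex (α := ℝ)
          (fun j : Fin (n + 1) => (⟨n + d - j, by omega⟩ : Fin (n + 1 + d))))))).pair
          (Cmp.snd.on (Cmp.reindex (α := ℝ)
            (fun j : Fin (n + 1) => (⟨j, by omega⟩ : Fin (2 ^ k)))))
      exact Cmp.on (e1.mono (by omega)) (hK1 k (n + 1) (n + 1) (n + 1) (by omega) (by omega)
        (by rw [pow_succ]; omega))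
    have c12 := c1.bind c2
    -- the product of the quotient and the divisor
    have c3 : Cmp (fun p : ((Fin (n + 1 + d) → ℝ) × (Fin d → ℝ)) × (Fin (n + 1) → ℝ) =>
        fun i : Fin d => ((toPoly fun j : Fin (n + 1) => p.2 j.rev) * toPoly p.1.2).coeff i)
        (K1 * 2 ^ k * (k + 1) ^ 2) := by
      have e1 : Cmp (fun p : ((Fin (n + 1 + d) → ℝ) × (Fin d → ℝ)) × (Fin (n + 1) → ℝ) =>
          ((fun j : Fin (n + 1) => p.2 j.rev), p.1.2)) (0 + 0) :=
        (Cmp.snd.on (Cmp.reindex (α := ℝ) (fun j : Fin (n + 1) => j.rev))).pair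
          (Cmp.fst.on Cmp.snd)
      exact Cmp.on (e1.mono (by omega)) (hK1 k (n + 1) d d (by omega) hd
        (by rw [pow_succ]; omega))
    have c123 := c12.bind c3
    -- the remainder
    have c4 : Cmp (fun p : ((Fin (n + 1 + d) → ℝ) × (Fin d → ℝ)) × (Fin d → ℝ) =>
        fun i : Fin d => p.1.1 ⟨i, by omega⟩ - p.2 i) (d * 1) := by
      refine Cmp.pi fun i => ?_
      exact ((Cmp.fst.on (Cmp.fst.on (Cmp.proj _))).sub' (Cmp.snd.on (Cmp.proj i))).mono
        (by omega)
    have c1234 := c123.bind c4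
    refine (c1234.mono (by omega)).congr fun p => ?_
    funext i
    have hlt : (i : ℕ) < n + 1 + d := by omega
    refine Eq.trans ?_ (mod_coeff p.1 p.2 (fun j : Fin (n + 1) => p.1 ⟨n + d - j, by omega⟩)
      (fun j : Fin (n + 1) => PowerSeries.coeff (R := ℝ) (j : ℕ)
        ((1 + PowerSeries.X * ((toPoly (fun j : Fin d => p.2 j.rev) : ℝ[X]) :
            PowerSeries ℝ))⁻¹)) _ (fun j => ?_) (fun j => rfl) (fun j => rfl) i).symm
    · rw [coeff_toPoly_of_lt _ hlt]
    · rw [coeff_toPoly_of_lt]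

end Pool.Agent.H155.NL
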